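import Pool.Agent.KDT.StmtsK
import Pool.Agent.Helper39_SZT.BOU
import Pool.Agent.Helper82_SZT.BOT

/-!
# Squad KDT, row PLN: nodes of a number field
-/

set_option autoImplicit false

noncomputable section

namespace Pool.Agent.KDT.H7

open Polynomial NumberField H58Q Pool.Agent.SZT Pool.Agent.KDT

theorem kum_map {K E : Type} [Field K] [Field E] (φ : K →+* E) (f A B : K[X]) (l : Fin 4) :
    φ (kum f A B l) = kum (f.map φ) (A.map φ) (B.map φ) l := by
  unfold kum
  fin_cases l <;> simp [coeff_map]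

theorem FF_add_int (x : ℝ) (m : ℤ) : FF (x + m) = FF x := by
  unfold FF
  rw [Int.fract_add_intCast]

theorem pln (hLfb : LfbStatement) (hMbn : MbnStatement) (hGmp : GmpStatement)
    (nod : SZT.B.NodStmt) (cpl : SZT.B.CplStmt) (roo : SZT.B.RooStmt) (sqr : SZT.B.SqrStmt)
    (kap : SZT.B.KapStmt) (rat : SZT.B.RatStmt) (nsz : SZT.B.NszStmt) : PlnStatement := by
  intro K _ _ vv f n hf h5 hsq hNS hn hdis0 I hI
  -- the absolute value
  obtain ⟨v, hv⟩ : ∃ v : AbsoluteValue K ℝ, v = vv.val := ⟨_, rfl⟩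
  obtain ⟨c, hcdef⟩ : ∃ c : ℝ, c = (Ideal.absNorm vv.maximalIdeal.asIdeal : ℝ)⁻¹ := ⟨_, rfl⟩
  have hq : (1 : ℝ) < (Ideal.absNorm vv.maximalIdeal.asIdeal : ℝ) := by
    exact_mod_cast HeightOneSpectrum.one_lt_absNorm vv.maximalIdeal
  have hc : 0 < c := by rw [hcdef]; positivity
  have hc1 : c < 1 := by rw [hcdef]; exact inv_lt_one_of_one_lt₀ hq
  have hvv : ∀ x : K, vv x = v x := by
    intro x
    rw [hv]
    rfl
  have hna : IsNonarchimedean v := by
    rw [hv]
    exact fun x y => FinitePlace.add_le vv x y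
  have hV : ∀ x : K, x ≠ 0 → ∃ k : ℤ, v x = c ^ k := by
    intro x hx
    rw [← hvv, hcdef]
    exact Pool.Agent.SZT.H82.value_group vv x hx
  have hdis : v (discr f) = c ^ n := by
    rw [← hvv, hcdef, inv_pow]
    exact eq_inv_of_mul_eq_one_left hdis0
  have hNS' : NodeShape v f := by rw [hv]; exact hNS
  have hdn : discr f ≠ 0 := by
    intro h
    rw [h, map_zero] at hdis
    exact (pow_pos hc n).ne hdis
  have hnt : ∃ x : K, x ≠ 0 ∧ v x ≠ 1 := by
    refine ⟨discr f, hdn, ?_⟩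
    rw [hdis]
    exact (pow_lt_one₀ hc.le hc1 hn.ne').ne
  obtain ⟨Ω, L, _, _, _, _, _, i, j, hij⟩ := cpl K v hna hnt
  obtain ⟨θ, e₀, hN, he₀⟩ := roo K Ω L i j v f hij hf h5 hdn hNS'
  obtain ⟨φ, hφ⟩ : ∃ φ : K →+* L, φ = j.comp i := ⟨_, rfl⟩
  rw [← hφ] at hN
  obtain ⟨θL, hθL⟩ : ∃ θL : Fin 5 → L, θL = fun k => j (θ k) := ⟨_, rfl⟩
  rw [← hθL] at hN he₀
  have hφx : ∀ x : K, φ x = j (i x) := fun x => by rw [hφ]; rfl
  have hφv : ∀ x : K, ‖φ x‖ = v x := by
    intro x
    rw [hφx, hij]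
  have hmm : ∀ p : K[X], (p.map i).map j = p.map φ := by
    intro p
    rw [Polynomial.map_map, hφ]
  obtain ⟨⟨hη0, hη1, -⟩, ⟨hPI, hh0, -⟩, -, -, -, hres⟩ := nod L (f.map φ) θL hN
  have hηd : ‖SZT.B.eta θL‖ = v (discr f) := by
    rw [← hres, Pool.Agent.SZT.H39.discr_map φ hf h5, hφv]
  have hηc : ‖SZT.B.eta θL‖ = c ^ n := by rw [hηd, hdis]
  -- the square root
  obtain ⟨s, hs⟩ : ∃ s : ℕ → L, SZT.B.Sq (SZT.B.hh θL) s := by
    obtain ⟨e, he0⟩ : ∃ e : Ω, e = (θ 0 + θ 1) / 2 := ⟨_, rfl⟩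
    have he : SZT.B.ctr θL = j e := by
      rw [hθL, he0]
      change (j (θ 0) + j (θ 1)) / 2 = j ((θ 0 + θ 1) / 2)
      rw [map_div₀, map_add, map_ofNat]
    obtain ⟨z, hz⟩ := IsAlgClosed.exists_pow_nat_eq ((e - θ 2) * (e - θ 3) * (e - θ 4)) (n := 2)
      (by norm_num)
    have hw : (SZT.B.hh θL).coeff 0 = j ((e - θ 2) * (e - θ 3) * (e - θ 4)) := by
      rw [Polynomial.coeff_zero_eq_eval_zero]
      unfold SZT.B.hh
      rw [eval_mul, eval_mul, eval_sub, eval_sub, eval_sub, eval_X, eval_C, eval_C, eval_C, he,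
        map_mul, map_mul, map_sub, map_sub, map_sub, hθL]
      ring
    have hz2 : (j z) ^ 2 = (SZT.B.hh θL).coeff 0 := by rw [hw, ← hz, map_pow]
    refine sqr L (SZT.B.hh θL) (j z) hN.two hPI hz2 ?_
    have h1 : ‖j z‖ ^ 2 = 1 := by rw [← norm_pow, hz2, hh0]
    exact (pow_eq_one_iff_of_nonneg (norm_nonneg _) (by norm_num)).mp h1
  have h20 : (2 : K) ≠ 0 := by
    intro h
    have h' := hNS'.1
    rw [h, map_zero] at h'
    exact zero_ne_one h'
  have hspl : ∀ p : K[X], (p.map φ).Splits := by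
    intro p
    rw [← hmm]
    exact (IsAlgClosed.splits (p.map i)).map j
  obtain ⟨s₁, A₁, B₁, hM₁, hd₁, hs₁, hk, hp⟩ :=
    kap K L φ f θL s h20 hsq h5 hN hs hspl I hI
  obtain ⟨e', he'⟩ := rat K L φ f θL e₀ hN (by rw [hφx]; exact he₀)
  let w : AbsoluteValue Ω ℝ :=
    { toFun := fun x => ‖j x‖
      map_mul' := fun x y => by rw [map_mul, norm_mul]
      nonneg' := fun x => norm_nonneg _
      eq_zero' := fun x => by rw [norm_eq_zero, map_eq_zero]
      add_le' := fun x y => by rw [map_add]; exact norm_add_le _ _ }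
  have hwx : ∀ x, w x = ‖j x‖ := fun x => rfl
  have hwi : ∀ x, w (i x) = v x := fun x => hij x
  refine ⟨s₁, Ω, inferInstance, w, i, adc (f.map i) (θ 0) (θ 2), ?_, ?_, ?_, ?_⟩
  · rw [hs₁]
    exact nsz K L φ f A₁ B₁ θL s c n e' hc hc1 (fun x hx => by rw [hφv]; exact hV x hx) hN hs hηc
      he' hM₁ hd₁ (hspl A₁)
  · intro x
    rw [hwi, hvv]
  · intro x y
    rw [hwx, hwx, hwx, map_add]
    exact IsUltrametricDist.norm_add_le_max _ _
  · intro k A B U W M hVG hcl hGen κ e hκ he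
    obtain ⟨jj', hjj⟩ := hk k A B hVG.1.toMum hcl
    obtain ⟨-, hG, hGn, hLv, hT⟩ := hGmp K Ω i f A B U W M hf
    have hN' : SZT.B.Node ((f.map i).map j) (fun k => j (θ k)) := by
      rw [hmm, ← hθL]
      exact hN
    have hs' : SZT.B.Sq (SZT.B.hh (fun k => j (θ k))) s := by
      rw [← hθL]
      exact hs
    have h2Ω : (2 : Ω) ≠ 0 := by
      have h1 : (2 : Ω) = i 2 := by rw [map_ofNat]
      rw [h1]
      exact (map_ne_zero i).mpr h20
    have hsqi : Squarefree (f.map i) := by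
      have h1 : f.Separable := by
        rw [Polynomial.separable_def]
        have h2 := Polynomial.resultant_eq_zero_iff (f := f) (g := derivative f)
        by_contra hcon
        apply hdn
        have h3 : resultant f (derivative f) = 0 := h2.mpr ⟨Or.inl hf.ne_zero, hcon⟩
        have h4 := Pool.Agent.SZT.H39.discr_map (RingHom.id K) hf h5
        rw [Polynomial.map_id, h3] at h4
        exact h4.symm
      exact (h1.map (f := i)).squarefree
    have key := hLfb Ω L j w (f.map i) θ s hwx hN' hs' h2Ω (hf.map i)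
      (by rw [hf.natDegree_map, h5]) hsqi (A.map i) (B.map i) (U.map i) (W.map i) M (hG hVG.1)
      (hT hVG) (hGn hGen)
    have hkum : (fun l => i (kum f A B l)) = kum (f.map i) (A.map i) (B.map i) :=
      funext fun l => kum_map i f A B l
    rw [hkum]
    have hLvv : Lv w (f.map i) (A.map i) (U.map i) M = Lv vv f A U M := by
      rw [hLv v w hwi]
      unfold Lv
      rw [hvv, hvv]
    rw [← hθL, hmm, hmm, hjj] at key
    have hmon : w (mon e (uni (adc (f.map i) (θ 0) (θ 2)) (kum (f.map i) (A.map i) (B.map i)))) =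
        ∏ l, w (uni (adc (f.map i) (θ 0) (θ 2)) (kum (f.map i) (A.map i) (B.map i)) l) ^ e l := by
      unfold mon
      rw [map_prod]
      refine Finset.prod_congr rfl fun l _ => ?_
      rw [map_pow]
    rw [hmon]
    have hq0 : Real.log ‖SZT.B.eta θL‖ < 0 := Real.log_neg (norm_pos_iff.mpr hη0) hη1
    have hfin := hMbn (Real.log ‖SZT.B.eta θL‖) (Lv vv f A U M) (k * s₁)
      (fun l => w (uni (adc (f.map i) (θ 0) (θ 2)) (kum (f.map i) (A.map i) (B.map i)) l)) κ e hq0 hκ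
      he (by
        intro l
        refine ⟨w.nonneg _, ?_⟩
        have h1 := key l
        rw [hLvv, add_right_comm (k * s₁ : ℝ) (jj' : ℝ) (1 / 2), FF_add_int, FF_add_int] at h1
        exact h1)
    rw [hηd, ← hvv] at hfin
    exact hfin

end Pool.Agent.KDT.H7
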