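import Pool.Agent.KDT.StmtsK

/-!
# Squad KDT, row UNV: the determinant of the monomials is invariant under unipotent changes
-/

set_option autoImplicit false

noncomputable section

namespace Pool.Agent.KDT.H7

open Polynomial NumberField H58Q Pool.Agent.SZT Pool.Agent.KDT

section U

variable {E J : Type} [Field E] (p : J → Fin 4 → E)

/-- the vector of the values of a monomial -/
def MV (a b c d : ℕ) : J → E := fun j => p j 0 ^ a * p j 1 ^ b * p j 2 ^ c * p j 3 ^ d

/-- monomials of degree `m` and weight `< n` -/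
def AS (m n : ℕ) : Submodule E (J → E) :=
  Submodule.span E {F | ∃ a b c d, a + b + c + d = m ∧ b + 2 * c + 3 * d < n ∧ F = MV p a b c d}

theorem MV_mem {a b c d m n : ℕ} (h1 : a + b + c + d = m) (h2 : b + 2 * c + 3 * d < n) :
    MV p a b c d ∈ AS p m n :=
  Submodule.subset_span ⟨a, b, c, d, h1, h2, rfl⟩

theorem AS_mul {F G : J → E} {m n m' n' : ℕ} (hF : F ∈ AS p m (n + 1)) (hG : G ∈ AS p m' n') :
    F * G ∈ AS p (m + m') (n + n') := by
  have h1 : AS p m (n + 1) * AS p m' n' ≤ AS p (m + m') (n + n') := by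
    unfold AS
    rw [Submodule.span_mul_span, Submodule.span_le]
    intro x hx
    obtain ⟨y, ⟨a, b, c, d, hy1, hy2, rfl⟩, z, ⟨a', b', c', d', hz1, hz2, rfl⟩, rfl⟩ :=
      Set.mem_mul.mp hx
    apply Submodule.subset_span
    refine ⟨a + a', b + b', c + c', d + d', by omega, by omega, ?_⟩
    funext j
    show MV p a b c d j * MV p a' b' c' d' j = MV p (a + a') (b + b') (c + c') (d + d') j
    unfold MV
    ring
  exact h1 (Submodule.mul_mem_mul hF hG)

theorem AS_mul' {F G : J → E} {m n m' n' : ℕ} (hF : F ∈ AS p m n) (hG : G ∈ AS p m' (n' + 1)) :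
    F * G ∈ AS p (m + m') (n + n') := by
  rw [mul_comm, add_comm m, add_comm n]
  exact AS_mul p hG hF

theorem AS_mono {m n n' : ℕ} (h : n ≤ n') : AS p m n ≤ AS p m n' := by
  unfold AS
  apply Submodule.span_mono
  rintro F ⟨a, b, c, d, h1, h2, h3⟩
  exact ⟨a, b, c, d, h1, by omega, h3⟩

/-- `F` agrees with `G` up to lower weight -/
structure Ap (F G : J → E) (m n : ℕ) : Prop where
  g : G ∈ AS p m (n + 1)
  d : F - G ∈ AS p m n

theorem Ap.f {F G : J → E} {m n : ℕ} (h : Ap p F G m n) : F ∈ AS p m (n + 1) := by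
  have h1 : F = (F - G) + G := by ring
  rw [h1]
  exact Submodule.add_mem _ (AS_mono p (Nat.le_succ n) h.d) h.g

theorem Ap.mul {F G F' G' : J → E} {m n m' n' : ℕ} (h : Ap p F G m n) (h' : Ap p F' G' m' n') :
    Ap p (F * F') (G * G') (m + m') (n + n') := by
  constructor
  · have h1 : G * G' ∈ AS p (m + m') (n + (n' + 1)) := AS_mul p h.g h'.g
    exact h1
  · have h1 : F * F' - G * G' = (F - G) * F' + G * (F' - G') := by ring
    rw [h1]
    exact Submodule.add_mem _ (AS_mul' p h.d (Ap.f p h')) (AS_mul p h.g h'.d)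

theorem Ap.one : Ap p 1 1 0 0 := by
  constructor
  · have h1 : (1 : J → E) = MV p 0 0 0 0 := by
      funext j
      simp [MV]
    rw [h1]
    exact MV_mem p rfl (by omega)
  · rw [sub_self]
    exact Submodule.zero_mem _

theorem Ap.pow {F G : J → E} {m n : ℕ} (h : Ap p F G m n) (k : ℕ) :
    Ap p (F ^ k) (G ^ k) (k * m) (k * n) := by
  induction k with
  | zero =>
    rw [pow_zero, pow_zero, zero_mul, zero_mul]
    exact Ap.one p
  | succ k ih =>
    rw [pow_succ, pow_succ, Nat.succ_mul, Nat.succ_mul]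
    exact Ap.mul p ih h

theorem ap0 (c : Fin 6 → E) : Ap p (fun j => uni c (p j) 0) (fun j => p j 0) 1 0 := by
  constructor
  · have h1 : (fun j => p j 0) = MV p 1 0 0 0 := by
      funext j
      simp [MV]
    rw [h1]
    exact MV_mem p rfl (by omega)
  · have h1 : (fun j => uni c (p j) 0) - (fun j => p j 0) = 0 := by
      funext j
      simp [uni]
    rw [h1]
    exact Submodule.zero_mem _

theorem ap1 (c : Fin 6 → E) : Ap p (fun j => uni c (p j) 1) (fun j => p j 1) 1 1 := by
  constructor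
  · have h1 : (fun j => p j 1) = MV p 0 1 0 0 := by
      funext j
      simp [MV]
    rw [h1]
    exact MV_mem p rfl (by omega)
  · have h1 : (fun j => uni c (p j) 1) - (fun j => p j 1) = c 0 • MV p 1 0 0 0 := by
      funext j
      simp [uni, MV]
    rw [h1]
    exact Submodule.smul_mem _ _ (MV_mem p rfl (by omega))

theorem ap2 (c : Fin 6 → E) : Ap p (fun j => uni c (p j) 2) (fun j => p j 2) 1 2 := by
  constructor
  · have h1 : (fun j => p j 2) = MV p 0 0 1 0 := by
      funext j
      simp [MV]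
    rw [h1]
    exact MV_mem p rfl (by omega)
  · have h1 : (fun j => uni c (p j) 2) - (fun j => p j 2) =
        c 1 • MV p 0 1 0 0 + c 2 • MV p 1 0 0 0 := by
      funext j
      simp [uni, MV]
      ring
    rw [h1]
    exact Submodule.add_mem _ (Submodule.smul_mem _ _ (MV_mem p rfl (by omega)))
      (Submodule.smul_mem _ _ (MV_mem p rfl (by omega)))

theorem ap3 (c : Fin 6 → E) : Ap p (fun j => uni c (p j) 3) (fun j => p j 3) 1 3 := by
  constructor
  · have h1 : (fun j => p j 3) = MV p 0 0 0 1 := by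
      funext j
      simp [MV]
    rw [h1]
    exact MV_mem p rfl (by omega)
  · have h1 : (fun j => uni c (p j) 3) - (fun j => p j 3) =
        c 3 • MV p 0 0 1 0 + c 4 • MV p 0 1 0 0 + c 5 • MV p 1 0 0 0 := by
      funext j
      simp [uni, MV]
      ring
    rw [h1]
    exact Submodule.add_mem _ (Submodule.add_mem _
      (Submodule.smul_mem _ _ (MV_mem p rfl (by omega)))
      (Submodule.smul_mem _ _ (MV_mem p rfl (by omega))))
      (Submodule.smul_mem _ _ (MV_mem p rfl (by omega)))

theorem mon4 (e : Fin 4 → ℕ) (u : Fin 4 → E) :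
    mon e u = u 0 ^ e 0 * u 1 ^ e 1 * u 2 ^ e 2 * u 3 ^ e 3 := by
  unfold mon
  rw [Fin.prod_univ_four]

theorem ap_mon (c : Fin 6 → E) (e : Fin 4 → ℕ) :
    Ap p (fun j => mon e (uni c (p j))) (fun j => mon e (p j)) (e 0 + e 1 + e 2 + e 3) (wt e) := by
  have h := Ap.mul p (Ap.mul p (Ap.mul p (Ap.pow p (ap0 p c) (e 0)) (Ap.pow p (ap1 p c) (e 1)))
    (Ap.pow p (ap2 p c) (e 2))) (Ap.pow p (ap3 p c) (e 3))
  have h1 : (fun j => mon e (uni c (p j))) =
      (fun j => uni c (p j) 0) ^ e 0 * (fun j => uni c (p j) 1) ^ e 1 *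
        (fun j => uni c (p j) 2) ^ e 2 * (fun j => uni c (p j) 3) ^ e 3 := by
    funext j
    rw [mon4]
    rfl
  have h2 : (fun j => mon e (p j)) =
      (fun j => p j 0) ^ e 0 * (fun j => p j 1) ^ e 1 *
        (fun j => p j 2) ^ e 2 * (fun j => p j 3) ^ e 3 := by
    funext j
    rw [mon4]
    rfl
  rw [h1, h2]
  have h3 : e 0 + e 1 + e 2 + e 3 = e 0 * 1 + e 1 * 1 + e 2 * 1 + e 3 * 1 := by omega
  have h4 : wt e = e 0 * 0 + e 1 * 1 + e 2 * 2 + e 3 * 3 := by
    unfold wt
    omega
  rw [h3, h4]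
  exact h

/-- the span of the reduced monomials of weight `< n` -/
def WS (κ n : ℕ) : Submodule E (J → E) :=
  Submodule.span E (Set.range fun e : Ex κ => if wt e.1 < n then (fun j => mon e.1 (p j)) else 0)

theorem WS_mono {κ n n' : ℕ} (h : n ≤ n') : WS p κ n ≤ WS p κ n' := by
  unfold WS
  rw [Submodule.span_le]
  rintro F ⟨e, rfl⟩
  show (if wt e.1 < n then (fun j => mon e.1 (p j)) else 0) ∈ _
  split_ifs with h1
  · apply Submodule.subset_span
    exact ⟨e, by
      show (if wt e.1 < n' then (fun j => mon e.1 (p j)) else 0) = _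
      rw [if_pos (lt_of_lt_of_le h1 h)]⟩
  · exact Submodule.zero_mem _

theorem red (g : E[X]) (hp : ∀ j, quart g (p j) = 0) (κ : ℕ) : ∀ (μ a b c d : ℕ),
    a + b + c + d = κ → (κ + 1) * (b + 2 * c + 3 * d) + b ≤ μ →
    MV p a b c d ∈ WS p κ (b + 2 * c + 3 * d + 1) := by
  intro μ
  induction μ using Nat.strong_induction_on with
  | _ μ ih =>
  intro a b c d hκ hμ
  by_cases hbd : b ≤ 1 ∨ d ≤ 1
  · apply Submodule.subset_span
    have hmem : ![a, b, c, d] ∈ Ex κ := by
      unfold Ex
      rw [Finset.mem_filter, Fintype.mem_piFinset]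
      refine ⟨?_, ?_, ?_⟩
      · intro i
        rw [Finset.mem_range]
        fin_cases i
        · show a < κ + 1
          omega
        · show b < κ + 1
          omega
        · show c < κ + 1
          omega
        · show d < κ + 1
          omega
      · exact hκ
      · exact hbd
    refine ⟨⟨![a, b, c, d], hmem⟩, ?_⟩
    have h1 : wt ![a, b, c, d] = b + 2 * c + 3 * d := rfl
    show (if wt ![a, b, c, d] < _ then (fun j => mon ![a, b, c, d] (p j)) else 0) = _
    rw [if_pos (by rw [h1]; omega)]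
    funext j
    rw [mon4]
    rfl
  · push Not at hbd
    obtain ⟨b', rfl⟩ := Nat.exists_eq_add_of_le' (show 2 ≤ b by omega)
    obtain ⟨d', rfl⟩ := Nat.exists_eq_add_of_le' (show 2 ≤ d by omega)
    -- the general step
    have step : ∀ x y z w : ℕ, x + y + z + w = κ →
        (y + 2 * z + 3 * w < b' + 2 + 2 * c + 3 * (d' + 2) ∨
          (y + 2 * z + 3 * w = b' + 2 + 2 * c + 3 * (d' + 2) ∧ y < b' + 2)) →
        MV p x y z w ∈ WS p κ (b' + 2 + 2 * c + 3 * (d' + 2) + 1) := by
      intro x y z w hs hlt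
      have hmu : (κ + 1) * (y + 2 * z + 3 * w) + y < μ := by
        refine lt_of_lt_of_le ?_ hμ
        rcases hlt with h | ⟨h, h'⟩
        · have h1 : (κ + 1) * (y + 2 * z + 3 * w + 1) ≤ (κ + 1) * (b' + 2 + 2 * c + 3 * (d' + 2)) :=
            Nat.mul_le_mul_left _ h
          have h2 : (κ + 1) * (y + 2 * z + 3 * w + 1) = (κ + 1) * (y + 2 * z + 3 * w) + (κ + 1) := by
            ring
          omega
        · rw [h]
          omega
      have h1 := ih _ hmu x y z w hs le_rfl
      refine WS_mono p ?_ h1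
      omega
    have hid : MV p a (b' + 2) c (d' + 2) =
        (4 : E) • MV p (a + 1) b' (c + 1) (d' + 2) +
        (4 * g.coeff 0) • MV p (a + 3) b' c (d' + 1) +
        (2 * g.coeff 1) • MV p (a + 2) (b' + 1) c (d' + 1) +
        (4 * g.coeff 2) • MV p (a + 2) b' (c + 1) (d' + 1) +
        (2 * g.coeff 3) • MV p (a + 1) (b' + 1) (c + 1) (d' + 1) +
        (4 * g.coeff 4) • MV p (a + 1) b' (c + 2) (d' + 1) +
        (2 : E) • MV p a (b' + 1) (c + 2) (d' + 1) +
        (4 * g.coeff 0 * g.coeff 2 - g.coeff 1 ^ 2) • MV p (a + 4) b' c d' +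
        (4 * g.coeff 0 * g.coeff 3) • MV p (a + 3) (b' + 1) c d' +
        (2 * g.coeff 1 * g.coeff 3) • MV p (a + 3) b' (c + 1) d' +
        (4 * g.coeff 0 * g.coeff 4) • MV p (a + 2) (b' + 2) c d' +
        (4 * g.coeff 1 * g.coeff 4 - 4 * g.coeff 0) • MV p (a + 2) (b' + 1) (c + 1) d' +
        (4 * g.coeff 2 * g.coeff 4 - 2 * g.coeff 1 - g.coeff 3 ^ 2) • MV p (a + 2) b' (c + 2) d' +
        (4 * g.coeff 0) • MV p (a + 1) (b' + 3) c d' +
        (4 * g.coeff 1) • MV p (a + 1) (b' + 2) (c + 1) d' +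
        (4 * g.coeff 2) • MV p (a + 1) (b' + 1) (c + 2) d' +
        (2 * g.coeff 3) • MV p (a + 1) b' (c + 3) d' +
        (-1 : E) • MV p a b' (c + 4) d' := by
      funext j
      have hq := hp j
      unfold quart at hq
      simp only [Pi.add_apply, Pi.smul_apply, smul_eq_mul, MV]
      linear_combination (p j 0 ^ a * p j 1 ^ b' * p j 2 ^ c * p j 3 ^ d') * hq
    rw [hid]
    repeat' apply Submodule.add_mem
    all_goals
      apply Submodule.smul_mem
      apply step
      · omega
      · omega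

theorem AS_le (g : E[X]) (hp : ∀ j, quart g (p j) = 0) (κ n : ℕ) : AS p κ n ≤ WS p κ n := by
  unfold AS
  rw [Submodule.span_le]
  rintro F ⟨a, b, c, d, h1, h2, rfl⟩
  exact WS_mono p h2 (red p g hp κ _ a b c d h1 le_rfl)

end U

theorem unv : UnvStatement := by
  classical
  intro E _ g c κ p hp
  have key : ∀ e : Ex κ, ∃ S : Ex κ → E, (∀ e', S e' ≠ 0 → wt e'.1 < wt e.1) ∧
      ∀ j, mon e.1 (uni c (p j)) = mon e.1 (p j) + ∑ e', S e' * mon e'.1 (p j) := by
    intro e
    have hdeg : e.1 0 + e.1 1 + e.1 2 + e.1 3 = κ := by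
      have h := e.2
      unfold Ex at h
      rw [Finset.mem_filter] at h
      exact h.2.1
    have h1 := (ap_mon p c e.1).d
    rw [hdeg] at h1
    have h2 := AS_le p g hp κ (wt e.1) h1
    unfold WS at h2
    rw [Submodule.mem_span_range_iff_exists_fun] at h2
    obtain ⟨s, hs⟩ := h2
    refine ⟨fun e' => if wt e'.1 < wt e.1 then s e' else 0, ?_, ?_⟩
    · intro e' h
      by_contra hcon
      exact h (if_neg hcon)
    · intro j
      have h3 := congrFun hs j
      rw [Finset.sum_apply] at h3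
      have h4 : ∑ e' : Ex κ, (if wt e'.1 < wt e.1 then s e' else 0) * mon e'.1 (p j) =
          ∑ e' : Ex κ, (s e' • (if wt e'.1 < wt e.1 then (fun j => mon e'.1 (p j)) else 0 :
            Ex κ → E)) j := by
        refine Finset.sum_congr rfl fun e' _ => ?_
        split_ifs with h5
        · rfl
        · simp
      rw [h4, h3]
      show _ = mon e.1 (p j) + (mon e.1 (uni c (p j)) - mon e.1 (p j))
      ring
  choose S hS hSj using key
  let T : Matrix (Ex κ) (Ex κ) E := Matrix.of fun e' e => (if e' = e then 1 else 0) + S e e'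
  have hmul : (Matrix.of fun (j e : Ex κ) => mon e.1 (uni c (p j))) =
      (Matrix.of fun (j e : Ex κ) => mon e.1 (p j)) * T := by
    ext j e
    rw [Matrix.mul_apply]
    show mon e.1 (uni c (p j)) = ∑ e', mon e'.1 (p j) * ((if e' = e then 1 else 0) + S e e')
    rw [hSj e j]
    simp only [mul_add, Finset.sum_add_distrib, mul_ite, mul_one, mul_zero, Finset.sum_ite_eq',
      Finset.mem_univ, if_true]
    congr 1
    refine Finset.sum_congr rfl fun e' _ => mul_comm _ _
  have hbt : T.BlockTriangular (fun e : Ex κ => wt e.1) := by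
    intro e' e h
    have h' : wt e.1 < wt e'.1 := h
    show (if e' = e then (1 : E) else 0) + S e e' = 0
    have h1 : S e e' = 0 := by
      by_contra hne
      have := hS e e' hne
      omega
    have h2 : e' ≠ e := by
      rintro rfl
      exact lt_irrefl _ h'
    rw [if_neg h2, h1, add_zero]
  have hdet : T.det = 1 := by
    rw [hbt.det]
    refine Finset.prod_eq_one fun a _ => ?_
    have h1 : T.toSquareBlock (fun e : Ex κ => wt e.1) a = 1 := by
      ext e' e
      show (if e'.1 = e.1 then (1 : E) else 0) + S e.1 e'.1 = (1 : Matrix _ _ E) e' e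
      have h2 : S e.1 e'.1 = 0 := by
        by_contra hne
        have h3 := hS e.1 e'.1 hne
        have h4 : wt e.1.1 = a := e.2
        have h5 : wt e'.1.1 = a := e'.2
        omega
      rw [h2, add_zero, Matrix.one_apply]
      by_cases h6 : e' = e
      · rw [if_pos h6, if_pos (by rw [h6])]
      · rw [if_neg h6, if_neg (fun h => h6 (Subtype.ext h))]
    rw [h1, Matrix.det_one]
  rw [hmul, Matrix.det_mul, hdet, mul_one]

end Pool.Agent.KDT.H7
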